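import Mathlib
import Pool.Agent.Helper23.PosDefs
import Pool.Agent.Helper23.QMl

/-!
# Positive existential sets of finite order are empty or cocountable

Every subset of `ℂ` obtained from sets `{f ≠ 0}`, with `f` an entire function of any number of
variables, by countable intersections, arbitrary unions, entire preimages, unrestricted
existential quantifiers and existential quantifiers over the zeros of a not identically
vanishing entire function of finite order in the quantified variables is empty or cocountable.
-/

set_option autoImplicit false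

open Set Metric Filter Topology

namespace Pool.Agent.Helper23.Old.Positive

open Pool.Agent.Helper23.Positive Pool.Agent.Helper23.QM

/-- joining two blocks of coordinates -/
def appMap (n m : ℕ) : (Fin n → ℂ) × (Fin m → ℂ) → (Fin (n + m) → ℂ) :=
  fun p => Fin.append p.1 p.2

lemma appMap_analytic (n m : ℕ) : AnalyticOnNhd ℂ (appMap n m) univ := by
  intro p _
  rw [analyticAt_pi_iff]
  intro i
  refine Fin.addCases (fun j => ?_) (fun j => ?_) i
  · have h : AnalyticAt ℂ (fun p : (Fin n → ℂ) × (Fin m → ℂ) => p.1 j) p :=
      ((ContinuousLinearMap.proj (R := ℂ) (φ := fun _ : Fin n => ℂ) j).analyticAt _).comp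
        analyticAt_fst
    simpa [appMap] using! h
  · have h : AnalyticAt ℂ (fun p : (Fin n → ℂ) × (Fin m → ℂ) => p.2 j) p :=
      ((ContinuousLinearMap.proj (R := ℂ) (φ := fun _ : Fin m => ℂ) j).analyticAt _).comp
        analyticAt_snd
    simpa [appMap] using! h

/-- Members of the family are curve-open. -/
lemma tame {n : ℕ} {S : Set (Fin n → ℂ)} (hS : Pos n S) : CO S := by
  induction hS with
  | nonzero f hf => exact CO.nonzero hf
  | iInter _ ih => exact CO.iInter ih
  | iUnion _ ih => exact CO.iUnion ih
  | preimage φ hφ _ ih => exact ih.comp hφ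
  | @ex n m S _ ih => exact CO.exBlock (ih.comp (appMap_analytic n m))
  | @zeros n m F hF hG S _ ih =>
    exact CO.rootBlock (F := fun p => F (appMap n m p)) (fun p _ =>
      AnalyticAt.comp (g := F) (hF _ (mem_univ _)) (appMap_analytic n m p (mem_univ _))) hG
      (ih.comp (appMap_analytic n m))

theorem result {n : ℕ} {S : Set (Fin n → ℂ)} (hS : Pos n S) (γ : ℂ → Fin n → ℂ)
    (hγ : AnalyticOnNhd ℂ γ univ) : (∀ t, γ t ∉ S) ∨ {t | γ t ∉ S}.Countable :=
  (tame hS).entire hγ

end Pool.Agent.Helper23.Old.Positive
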